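import Pool.Agent.K7.H44.ZeroComp

/-!
# The inequality for zero entries up to half of the smaller squared norm

For every nonnegative matrix `M` with largest row sum `R` and largest column sum `C`, and every odd
number `t` of distinct positions at which `M` vanishes, the double sum of the problem is at most
`(t - 1) R C + min(R, C) ^ 2 / 2`.
-/

set_option autoImplicit false

open Finset

namespace Pool.Agent.Results.MP_ee21b2_co.HalfSquareLoss

/-- The largest row sum. -/
noncomputable def maxRowSum {n k : ℕ} (M : Fin n → Fin k → ℝ) : ℝ := ⨆ x, ∑ y, M x y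

/-- The largest column sum. -/
noncomputable def maxColSum {n k : ℕ} (M : Fin n → Fin k → ℝ) : ℝ := ⨆ y, ∑ x, M x y

lemma row_le {n k : ℕ} (M : Fin n → Fin k → ℝ) (x : Fin n) : ∑ y, M x y ≤ maxRowSum M :=
  le_ciSup (f := fun x => ∑ y, M x y) (Set.finite_range _).bddAbove x

lemma col_le {n k : ℕ} (M : Fin n → Fin k → ℝ) (y : Fin k) : ∑ x, M x y ≤ maxColSum M :=
  le_ciSup (f := fun y => ∑ x, M x y) (Set.finite_range _).bddAbove y

/-- The case in which the row bound dominates. -/
lemma rowcase {n k : ℕ} (M : Fin n → Fin k → ℝ) (hM : ∀ x y, 0 ≤ M x y) (t : ℕ) (ht : Odd t)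
    (x : Fin t → Fin n) (y : Fin t → Fin k) (hinj : Function.Injective fun i => (x i, y i))
    (h0 : ∀ i, M (x i) (y i) = 0) (R C : ℝ) (hR : ∀ x, ∑ y, M x y ≤ R)
    (hC : ∀ y, ∑ x, M x y ≤ C) (hCR : C ≤ R) :
    ∑ i, ∑ j, M (x i) (y j) * M (x j) (y i) ≤ ((t : ℝ) - 1) * R * C + C ^ 2 / 2 := by
  have i0 : Fin t := ⟨0, ht.pos⟩
  have hC0 : 0 ≤ C := (sum_nonneg fun u _ => hM u (y i0)).trans (hC (y i0))
  rcases eq_or_lt_of_le hC0 with hz | hpos
  · have hMz : ∀ u v, M u v = 0 := by
      intro u v
      have h1 := hC v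
      rw [← hz] at h1
      have h2 : M u v ≤ ∑ x, M x v := single_le_sum (f := fun x => M x v) (fun z _ => hM z v)
        (mem_univ u)
      linarith [hM u v]
    simp [hMz, ← hz]
  · set M0 : ℕ → ℕ → ℝ := fun u v => if h : u < n ∧ v < k then M ⟨u, h.1⟩ ⟨v, h.2⟩ else 0 with hM0
    have hval : ∀ (u : Fin n) (v : Fin k), M0 u v = M u v := by
      intro u v
      simp [hM0, u.2, v.2]
    have h1 := Pool.Agent.K7.H44.ZeroComp.real_case (n := n) (k := k) M0 (by
        intro u hu v hv
        have := hval ⟨u, hu⟩ ⟨v, hv⟩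
        simp only at this
        rw [this]
        exact hM _ _) R C hpos hCR (by
        intro u hu
        have h2 : ∑ v ∈ range k, M0 u v = ∑ v : Fin k, M0 u v :=
          Finset.sum_range (fun v => M0 u v)
        rw [h2]
        have h3 : ∀ v : Fin k, M0 u v = M ⟨u, hu⟩ v := fun v => hval ⟨u, hu⟩ v
        rw [sum_congr rfl fun v _ => h3 v]
        exact hR _) (by
        intro v hv
        have h2 : ∑ u ∈ range n, M0 u v = ∑ u : Fin n, M0 u v :=
          Finset.sum_range (fun u => M0 u v)
        rw [h2]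
        have h3 : ∀ u : Fin n, M0 u v = M u ⟨v, hv⟩ := fun u => hval u ⟨v, hv⟩
        rw [sum_congr rfl fun u _ => h3 u]
        exact hC _) t ht (fun i => (x i : ℕ)) (fun i => (y i : ℕ)) (fun i => (x i).2)
        (fun i => (y i).2) (by
        intro i j hij
        apply hinj
        have h2 := congrArg Prod.fst hij
        have h3 := congrArg Prod.snd hij
        simp only at h2 h3 ⊢
        rw [Fin.ext h2, Fin.ext h3]) (fun i => by rw [hval]; exact h0 i)
    simp only [hval] at h1
    exact h1

theorem result (n k : ℕ) (M : Fin n → Fin k → ℝ) (hM : ∀ x y, 0 ≤ M x y) (t : ℕ) (ht : Odd t)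
    (x : Fin t → Fin n) (y : Fin t → Fin k) (hinj : Function.Injective fun i => (x i, y i))
    (h0 : ∀ i, M (x i) (y i) = 0) :
    ∑ i, ∑ j, M (x i) (y j) * M (x j) (y i) ≤
      ((t : ℝ) - 1) * maxRowSum M * maxColSum M + min (maxRowSum M) (maxColSum M) ^ 2 / 2 := by
  rcases le_total (maxRowSum M) (maxColSum M) with h | h
  · rw [min_eq_left h]
    have h1 := rowcase (fun v u => M u v) (fun v u => hM u v) t ht y x (by
      intro i j hij
      apply hinj
      have h2 := congrArg Prod.fst hij
      have h3 := congrArg Prod.snd hij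
      simp only at h2 h3 ⊢
      rw [h2, h3]) h0 (maxColSum M) (maxRowSum M) (col_le M) (row_le M) h
    have h2 : ∑ i, ∑ j, M (x i) (y j) * M (x j) (y i) =
        ∑ i, ∑ j, M (x j) (y i) * M (x i) (y j) :=
      sum_congr rfl fun i _ => sum_congr rfl fun j _ => mul_comm _ _
    rw [h2]
    refine h1.trans (le_of_eq ?_)
    ring
  · rw [min_eq_right h]
    exact rowcase M hM t ht x y hinj h0 _ _ (row_le M) (col_le M) h

end Pool.Agent.Results.MP_ee21b2_co.HalfSquareLoss
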