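import Pool.Agent.K7.H44.Owners

/-!
# Higgins' question on permutation and involution matchings

For a 0/1 matrix `M` of size `n × k`: if the bipartite graph with biadjacency matrix `M ⊗ Mᵀ` has a
perfect matching, then the graph with adjacency matrix `M ⊗ Mᵀ` has an involution matching.
-/

set_option autoImplicit false

open Finset

namespace Pool.Agent.Results.MP_ee21b2_co.HigginsInvolution

open Pool.Agent.K7.H44.LemmaA Pool.Agent.K7.H44.Owners

/-- The matrix `M ⊗ Mᵀ` of the problem: rows and columns are indexed by pairs `(x, y)`, and the entry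
at `((x₁, y₁), (x₂, y₂))` is `M x₁ y₂ * M x₂ y₁`. -/
def tensorT {n k : ℕ} (M : Fin n → Fin k → ℕ) (p q : Fin n × Fin k) : ℕ := M p.1 q.2 * M q.1 p.2

theorem result (n k : ℕ) (M : Fin n → Fin k → ℕ) (_hM : ∀ x y, M x y = 0 ∨ M x y = 1)
    (hπ : ∃ π : Equiv.Perm (Fin n × Fin k), ∀ p, tensorT M p (π p) ≠ 0) :
    ∃ θ : Equiv.Perm (Fin n × Fin k), (∀ p, θ (θ p) = p) ∧ ∀ p, tensorT M p (θ p) ≠ 0 := by
  classical
  obtain ⟨π, hπ⟩ := hπ
  rcases Nat.eq_zero_or_pos n with hn | hn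
  · subst hn
    exact ⟨1, fun p => rfl, fun p => p.1.elim0⟩
  -- the fractional matrix
  set M0 : Fin n → Fin k → ℝ := fun u y => ((univ.filter (fun v => (π (v, y)).1 = u)).card : ℝ)
    with hM0
  have hM0s : ∀ u y, M0 u y ≠ 0 → M u y ≠ 0 := by
    intro u y h h0
    apply h
    rw [hM0]
    simp only [Nat.cast_eq_zero, card_eq_zero]
    rw [filter_eq_empty_iff]
    intro v _ hv
    apply hπ (v, y)
    unfold tensorT
    simp only
    rw [hv, h0, mul_zero]
  have hcol0 : ∀ y, ∑ u, M0 u y = n := by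
    intro y
    rw [hM0]
    simp only
    have := Finset.card_eq_sum_card_fiberwise (s := (univ : Finset (Fin n)))
      (t := (univ : Finset (Fin n))) (f := fun v => (π (v, y)).1) (fun _ _ => mem_univ _)
    rw [card_univ, Fintype.card_fin] at this
    exact_mod_cast this.symm
  have hrow0 : ∀ u, ∑ y, M0 u y = k := by
    intro u
    rw [hM0]
    simp only
    have e1 : ∀ y, ((univ.filter (fun v => (π (v, y)).1 = u)).card : ℝ) =
        ∑ v, if (π (v, y)).1 = u then (1 : ℝ) else 0 := by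
      intro y
      simp
    rw [sum_congr rfl fun y _ => e1 y, sum_comm]
    have e2 : ∑ v, ∑ y, (if (π (v, y)).1 = u then (1 : ℝ) else 0) =
        ∑ p : Fin n × Fin k, if (π p).1 = u then (1 : ℝ) else 0 :=
      (Fintype.sum_prod_type (fun p : Fin n × Fin k => if (π p).1 = u then (1 : ℝ) else 0)).symm
    rw [e2, Equiv.sum_comp π (fun p => if p.1 = u then (1 : ℝ) else 0), Fintype.sum_prod_type,
      sum_comm]
    have e3 : ∀ _y : Fin k, ∑ x : Fin n, (if x = u then (1 : ℝ) else 0) = 1 := fun _ => by simp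
    simp only
    rw [sum_congr rfl fun y _ => e3 y]
    simp
  set M1 : ℕ → ℕ → ℝ := fun u y => if h : u < n ∧ y < k then M0 ⟨u, h.1⟩ ⟨y, h.2⟩ else 0 with hM1
  have hval : ∀ (u : Fin n) (y : Fin k), M1 u y = M0 u y := by
    intro u y
    simp [hM1, u.2, y.2]
  have hnn : ∀ x < n, ∀ y < k, 0 ≤ M1 x y := by
    intro x hx y hy
    have := hval ⟨x, hx⟩ ⟨y, hy⟩
    simp only at this
    rw [this, hM0]
    exact Nat.cast_nonneg _
  obtain ⟨M', r1, r2, r3, r4, r5, -⟩ := reduce n k (fun _ _ => 0) _ M1 rfl hnn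
  have hrow : ∀ x < n, ∑ y ∈ range k, M' x y = (k : ℝ) := by
    intro x hx
    rw [r4 x hx, Finset.sum_range]
    rw [← hrow0 ⟨x, hx⟩]
    exact sum_congr rfl fun y _ => hval ⟨x, hx⟩ y
  have hcol : ∀ y < k, ∑ x ∈ range n, M' x y = (n : ℝ) := by
    intro y hy
    rw [r5 y hy, Finset.sum_range]
    rw [← hcol0 ⟨y, hy⟩]
    exact sum_congr rfl fun x _ => hval x ⟨y, hy⟩
  obtain ⟨g, hg1, hg2⟩ := owners M' k n (by exact_mod_cast hn) r1 hrow hcol r2
  obtain ⟨θ, h1, h2⟩ := involution g hg2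
  have hgM : ∀ x y, M (g x y) y ≠ 0 := by
    intro x y
    apply hM0s
    intro h0
    apply hg1 x y
    apply r3 _ (g x y).2 _ y.2
    rw [hval, h0]
  refine ⟨θ, h1, fun p => ?_⟩
  unfold tensorT
  have h3 := h2 p
  have h4 : M (θ p).1 p.2 ≠ 0 := by
    rw [h3.1]; exact hgM _ _
  have h5 : M p.1 (θ p).2 ≠ 0 := by
    have := hgM (θ p).1 (θ p).2
    rw [h3.2] at this
    exact this
  exact mul_ne_zero h5 h4

end Pool.Agent.Results.MP_ee21b2_co.HigginsInvolution
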